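import Mathlib

set_option autoImplicit false

namespace Pool.Agent.Results.MP_93b7f4_co.DiracFails

universe u₁ u₂

/-- `G` is `k`-critical: its chromatic number is `k`, and every proper subgraph has smaller
chromatic number. -/
def IsCritical {V : Type u₁} (G : SimpleGraph V) (k : ℕ) : Prop :=
  G.chromaticNumber = k ∧ ∀ S : G.Subgraph, S ≠ ⊤ → S.coe.chromaticNumber < k

/-- The vertex set obtained from the disjoint union of `V₁` and `V₂` by identifying the vertex
set `H₁` with `H₂` along the bijection `σ`. -/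
def Glued {V₁ : Type u₁} {V₂ : Type u₂} (H₁ : Set V₁) (H₂ : Set V₂) (σ : H₁ ≃ H₂) :
    Type (max u₁ u₂) :=
  Quot (fun a b : V₁ ⊕ V₂ => ∃ v : H₁, a = Sum.inl v.1 ∧ b = Sum.inr (σ v).1)

/-- The image of a vertex of the first graph. -/
def inj₁ {V₁ : Type u₁} {V₂ : Type u₂} (H₁ : Set V₁) (H₂ : Set V₂) (σ : H₁ ≃ H₂) (v : V₁) :
    Glued H₁ H₂ σ :=
  Quot.mk _ (Sum.inl v)

/-- The image of a vertex of the second graph. -/
def inj₂ {V₁ : Type u₁} {V₂ : Type u₂} (H₁ : Set V₁) (H₂ : Set V₂) (σ : H₁ ≃ H₂) (v : V₂) :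
    Glued H₁ H₂ σ :=
  Quot.mk _ (Sum.inr v)

/-- Dirac's construction: identify `H₁` with `H₂` along `σ`, delete the edges `x y₁` and `x y₂`
(where `x` is the common image of `x₁` and `σ x₁`) and add the new edge `y₁ y₂`. -/
def diracGraph {V₁ : Type u₁} {V₂ : Type u₂} (G₁ : SimpleGraph V₁) (G₂ : SimpleGraph V₂)
    (H₁ : Set V₁) (H₂ : Set V₂) (σ : H₁ ≃ H₂) (x₁ : H₁) (y₁ : V₁) (y₂ : V₂) :
    SimpleGraph (Glued H₁ H₂ σ) :=
  ((G₁.map (inj₁ H₁ H₂ σ) ⊔ G₂.map (inj₂ H₁ H₂ σ)).deleteEdges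
      {s(inj₁ H₁ H₂ σ x₁, inj₁ H₁ H₂ σ y₁), s(inj₁ H₁ H₂ σ x₁, inj₂ H₁ H₂ σ y₂)}) ⊔
    SimpleGraph.edge (inj₁ H₁ H₂ σ y₁) (inj₂ H₁ H₂ σ y₂)

/-! ### Criticality through edge deletions -/

/-- Working form of `(K+1)`-criticality. -/
def Crit {V : Type*} (G : SimpleGraph V) (K : ℕ) : Prop :=
  G.Colorable (K + 1) ∧ ¬ G.Colorable K ∧
    (∀ a b, G.Adj a b → ∃ c : V → Fin K, ∀ x y, G.Adj x y → s(x, y) ≠ s(a, b) → c x ≠ c y) ∧
    ∀ x, ∃ y, G.Adj x y

lemma colorable_of_fun {V : Type*} {G : SimpleGraph V} {K : ℕ} (c : V → Fin K)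
    (h : ∀ x y, G.Adj x y → c x ≠ c y) : G.Colorable K :=
  ⟨SimpleGraph.Coloring.mk c (fun {x y} hxy => h x y hxy)⟩

lemma Crit.isCritical {V : Type*} {G : SimpleGraph V} {K : ℕ} (h : Crit G K) :
    IsCritical G (K + 1) := by
  obtain ⟨h1, h2, h3, h4⟩ := h
  constructor
  · apply le_antisymm
    · exact_mod_cast (SimpleGraph.chromaticNumber_le_iff_colorable (n := K + 1)).2 h1
    · by_contra hlt
      push Not at hlt
      apply h2
      rw [← SimpleGraph.chromaticNumber_le_iff_colorable]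
      have : G.chromaticNumber < (K : ℕ∞) + 1 := by exact_mod_cast hlt
      exact (ENat.lt_add_one_iff (ENat.natCast_ne_top K)).1 this
  · intro S hS
    have hE : ∃ a b, G.Adj a b ∧ ¬ S.Adj a b := by
      by_contra hcon
      push Not at hcon
      apply hS
      apply SimpleGraph.Subgraph.ext
      · ext v
        simp only [SimpleGraph.Subgraph.verts_top, Set.mem_univ, iff_true]
        obtain ⟨w, hw⟩ := h4 v
        exact S.edge_vert (hcon v w hw)
      · ext a b
        simp only [SimpleGraph.Subgraph.top_adj]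
        exact ⟨fun h => S.adj_sub h, fun h => hcon a b h⟩
    obtain ⟨a, b, hab, hnab⟩ := hE
    obtain ⟨c, hc⟩ := h3 a b hab
    have : S.coe.Colorable K := by
      refine colorable_of_fun (fun v => c v.1) ?_
      intro x y hxy
      have hxy' : S.Adj x.1 y.1 := hxy
      refine hc _ _ (S.adj_sub hxy') ?_
      intro he
      rw [Sym2.eq_iff] at he
      rcases he with he | he
      · rw [he.1, he.2] at hxy'; exact hnab hxy'
      · rw [he.1, he.2] at hxy'; exact hnab hxy'.symm
    have h5 := SimpleGraph.chromaticNumber_le_iff_colorable.2 this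
    refine lt_of_le_of_lt h5 ?_
    exact_mod_cast Nat.lt_succ_self K

lemma exists_col_of_isCritical {V : Type*} {G : SimpleGraph V} {K : ℕ} (h : IsCritical G (K + 1))
    (a b : V) (hab : G.Adj a b) :
    ∃ c : V → Fin K, ∀ x y, G.Adj x y → s(x, y) ≠ s(a, b) → c x ≠ c y := by
  let S : G.Subgraph :=
    { verts := Set.univ
      Adj := fun x y => G.Adj x y ∧ s(x, y) ≠ s(a, b)
      adj_sub := fun h => h.1
      edge_vert := fun _ => Set.mem_univ _
      symm := ⟨fun x y h => ⟨h.1.symm, by rw [Sym2.eq_swap]; exact h.2⟩⟩ }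
  have hS : S ≠ ⊤ := by
    intro he
    have : S.Adj a b := by rw [he]; exact hab
    exact this.2 rfl
  have h1 := h.2 S hS
  have h2 : S.coe.chromaticNumber ≤ (K : ℕ∞) := by
    have : S.coe.chromaticNumber < (K : ℕ∞) + 1 := by exact_mod_cast h1
    exact (ENat.lt_add_one_iff (ENat.natCast_ne_top K)).1 this
  rw [SimpleGraph.chromaticNumber_le_iff_colorable] at h2
  obtain ⟨C⟩ := h2
  refine ⟨fun v => C ⟨v, Set.mem_univ v⟩, ?_⟩
  intro x y hxy hne
  apply C.valid
  exact ⟨hxy, hne⟩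

lemma not_colorable_of_isCritical {V : Type*} {G : SimpleGraph V} {K : ℕ}
    (h : IsCritical G (K + 1)) : ¬ G.Colorable K := by
  intro hc
  have := SimpleGraph.chromaticNumber_le_iff_colorable.2 hc
  rw [h.1] at this
  have h2 : (K + 1 : ℕ) ≤ K := by exact_mod_cast this
  omega

/-! ### Bad configurations -/

/-- A `(K+1)`-critical graph with a clique `H` of size `h` containing distinct vertices `x, p, q`,
and a neighbour `y` of `x` outside `H`, such that in every `K`-colouring of the graph without the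
edges `x y` and `p q` in which `p` and `q` get the same colour, `y` gets that colour too. -/
def Bad (K h : ℕ) : Prop :=
  ∃ (V : Type) (_ : Finite V) (G : SimpleGraph V) (H : Set V) (x p q y : V),
    Crit G K ∧ G.IsClique H ∧ H.ncard = h ∧ x ∈ H ∧ p ∈ H ∧ q ∈ H ∧ x ≠ p ∧ x ≠ q ∧ p ≠ q ∧
      y ∉ H ∧ G.Adj x y ∧
      ∀ c : V → Fin K, (∀ a b, G.Adj a b → s(a, b) ≠ s(x, y) → s(a, b) ≠ s(p, q) → c a ≠ c b) →
        c p = c q → c y = c p

/-- Adding a vertex adjacent to all other vertices. -/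
def coneG {V : Type*} (G : SimpleGraph V) : SimpleGraph (Option V) where
  Adj a b := match a, b with
    | none, none => False
    | none, some _ => True
    | some _, none => True
    | some a, some b => G.Adj a b
  symm := ⟨by rintro (_ | a) (_ | b) h <;> simp_all [SimpleGraph.adj_comm]⟩
  loopless := ⟨by rintro (_ | a) h <;> simp_all⟩

@[simp] lemma cone_some_some {V : Type*} (G : SimpleGraph V) (a b : V) :
    (coneG G).Adj (some a) (some b) ↔ G.Adj a b := Iff.rfl
@[simp] lemma cone_none_some {V : Type*} (G : SimpleGraph V) (b : V) :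
    (coneG G).Adj none (some b) ↔ True := Iff.rfl
@[simp] lemma cone_some_none {V : Type*} (G : SimpleGraph V) (b : V) :
    (coneG G).Adj (some b) none ↔ True := Iff.rfl
@[simp] lemma cone_none_none {V : Type*} (G : SimpleGraph V) :
    (coneG G).Adj none none ↔ False := Iff.rfl

/-- A colouring of the cone by `K+1` colours gives one of the graph by `K` colours with the same
colour classes. -/
lemma drop_colour {V : Type*} {K : ℕ} (c : V → Fin (K + 1)) (t : Fin (K + 1))
    (h : ∀ v, c v ≠ t) : ∃ d : V → Fin K, ∀ v w, d v = d w ↔ c v = c w := by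
  refine ⟨fun v => (finSuccAboveEquiv t).symm ⟨c v, h v⟩, ?_⟩
  intro v w
  rw [(finSuccAboveEquiv t).symm.injective.eq_iff, Subtype.mk_eq_mk]

lemma Crit.toCone {V : Type*} {G : SimpleGraph V} {K : ℕ} (h : Crit G K) (hne : Nonempty V) :
    Crit (coneG G) (K + 1) := by
  classical
  obtain ⟨⟨c⟩, h2, h3, h4⟩ := h
  refine ⟨?_, ?_, ?_, ?_⟩
  · refine colorable_of_fun (fun a => match a with
      | none => Fin.last (K + 1)
      | some a => (c a).castSucc) ?_
    rintro (_ | a) (_ | b) hab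
    · exact absurd hab (by simp)
    · exact (Fin.castSucc_lt_last _).ne'
    · exact (Fin.castSucc_lt_last _).ne
    · intro he
      exact c.valid hab (Fin.castSucc_injective _ he)
  · rintro ⟨C⟩
    have hC : ∀ v : V, C (some v) ≠ C none := fun v => C.valid (by simp)
    obtain ⟨d, hd⟩ := drop_colour (fun v => C (some v)) (C none) hC
    apply h2
    refine colorable_of_fun d ?_
    intro x y hxy
    rw [Ne, hd]
    exact C.valid hxy
  · have hv : ∀ b : V, ∃ e : V → Fin K, ∀ x y, G.Adj x y → x ≠ b → y ≠ b → e x ≠ e y := by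
      intro b
      obtain ⟨w, hw⟩ := h4 b
      obtain ⟨e, he⟩ := h3 b w hw
      refine ⟨e, fun x y hxy hx hy => he x y hxy ?_⟩
      intro hs
      rw [Sym2.eq_iff] at hs
      rcases hs with hs | hs
      · exact hx hs.1
      · exact hy hs.2
    have hnone : ∀ b : V, ∃ f : Option V → Fin (K + 1), ∀ x y, (coneG G).Adj x y →
        s(x, y) ≠ s(none, some b) → f x ≠ f y := by
      intro b
      obtain ⟨e, he⟩ := hv b
      refine ⟨fun a => match a with
        | none => Fin.last K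
        | some a => if a = b then Fin.last K else (e a).castSucc, ?_⟩
      rintro (_ | x) (_ | y) hxy hs
      · exact absurd hxy (by simp)
      · have : y ≠ b := by rintro rfl; exact hs rfl
        simp only [this, if_false]
        exact (Fin.castSucc_lt_last _).ne'
      · have : x ≠ b := by rintro rfl; exact hs Sym2.eq_swap
        simp only [this, if_false]
        exact (Fin.castSucc_lt_last _).ne
      · have hxy' : G.Adj x y := hxy
        by_cases hx : x = b
        · have hy : y ≠ b := by rintro rfl; exact hxy'.ne hx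
          simp only [hx, hy, if_false, if_true]
          exact (Fin.castSucc_lt_last _).ne'
        · by_cases hy : y = b
          · simp only [hx, hy, if_false, if_true]
            exact (Fin.castSucc_lt_last _).ne
          · simp only [hx, hy, if_false]
            intro h
            exact he x y hxy' hx hy (Fin.castSucc_injective _ h)
    rintro (_ | a) (_ | b) hab
    · exact absurd hab (by simp)
    · exact hnone b
    · obtain ⟨f, hf⟩ := hnone a
      refine ⟨f, fun x y hxy hs => hf x y hxy ?_⟩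
      rw [Sym2.eq_swap (a := none)]
      exact hs
    · obtain ⟨e, he⟩ := h3 a b hab
      refine ⟨fun t => match t with
        | none => Fin.last K
        | some t => (e t).castSucc, ?_⟩
      rintro (_ | x) (_ | y) hxy hs
      · exact absurd hxy (by simp)
      · exact (Fin.castSucc_lt_last _).ne'
      · exact (Fin.castSucc_lt_last _).ne
      · intro h
        refine he x y hxy ?_ (Fin.castSucc_injective _ h)
        intro hs'
        apply hs
        rw [Sym2.eq_iff] at hs' ⊢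
        rcases hs' with hs' | hs'
        · left; rw [hs'.1, hs'.2]; exact ⟨rfl, rfl⟩
        · right; rw [hs'.1, hs'.2]; exact ⟨rfl, rfl⟩
  · rintro (_ | a)
    · obtain ⟨v⟩ := hne
      exact ⟨some v, by simp⟩
    · exact ⟨none, by simp⟩

lemma cone_prop {V : Type} {G : SimpleGraph V} {K : ℕ} {x p q y : V}
    (h : ∀ c : V → Fin K, (∀ a b, G.Adj a b → s(a, b) ≠ s(x, y) → s(a, b) ≠ s(p, q) → c a ≠ c b) →
        c p = c q → c y = c p) :
    ∀ c : Option V → Fin (K + 1), (∀ a b, (coneG G).Adj a b → s(a, b) ≠ s(some x, some y) →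
      s(a, b) ≠ s(some p, some q) → c a ≠ c b) → c (some p) = c (some q) →
        c (some y) = c (some p) := by
  intro c hc hpq
  have hC : ∀ v : V, c (some v) ≠ c none := by
    intro v
    refine hc (some v) none (by simp) ?_ ?_
    · intro hs; rw [Sym2.eq_iff] at hs; simp at hs
    · intro hs; rw [Sym2.eq_iff] at hs; simp at hs
  obtain ⟨d, hd⟩ := drop_colour (fun v => c (some v)) (c none) hC
  have := h d ?_ ((hd p q).2 hpq)
  · exact (hd y p).1 this
  · intro a b hab h1 h2
    rw [Ne, hd]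
    refine hc (some a) (some b) hab ?_ ?_
    · intro hs
      apply h1
      rw [Sym2.eq_iff] at hs ⊢
      simpa using hs
    · intro hs
      apply h2
      rw [Sym2.eq_iff] at hs ⊢
      simpa using hs

lemma Bad.cone_same {K h : ℕ} (hb : Bad K h) : Bad (K + 1) h := by
  obtain ⟨V, hV, G, H, x, p, q, y, hcrit, hcl, hcard, hx, hp, hq, hxp, hxq, hpq, hy, hxy, hc⟩ := hb
  refine ⟨Option V, inferInstance, coneG G, some '' H, some x, some p, some q, some y,
    hcrit.toCone ⟨x⟩, ?_, ?_, ⟨x, hx, rfl⟩, ⟨p, hp, rfl⟩, ⟨q, hq, rfl⟩, ?_, ?_, ?_, ?_, hxy,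
    cone_prop hc⟩
  · rintro _ ⟨a, ha, rfl⟩ _ ⟨b, hb, rfl⟩ hab
    exact hcl ha hb (fun h => hab (congrArg some h))
  · rw [Set.ncard_image_of_injective _ (Option.some_injective V), hcard]
  · simpa using hxp
  · simpa using hxq
  · simpa using hpq
  · rintro ⟨a, ha, hay⟩
    rw [Option.some.injEq] at hay
    exact hy (hay ▸ ha)

lemma Bad.cone_succ {K h : ℕ} (hb : Bad K h) : Bad (K + 1) (h + 1) := by
  obtain ⟨V, hV, G, H, x, p, q, y, hcrit, hcl, hcard, hx, hp, hq, hxp, hxq, hpq, hy, hxy, hc⟩ := hb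
  refine ⟨Option V, inferInstance, coneG G, insert none (some '' H), some x, some p, some q, some y,
    hcrit.toCone ⟨x⟩, ?_, ?_, Or.inr ⟨x, hx, rfl⟩, Or.inr ⟨p, hp, rfl⟩, Or.inr ⟨q, hq, rfl⟩,
    ?_, ?_, ?_, ?_, hxy, cone_prop hc⟩
  · rintro a (rfl | ⟨a, ha, rfl⟩) b (rfl | ⟨b, hb, rfl⟩) hab
    · exact absurd rfl hab
    · simp
    · simp
    · exact hcl ha hb (fun h => hab (congrArg some h))
  · rw [Set.ncard_insert_of_notMem (by simp) (Set.toFinite _),
      Set.ncard_image_of_injective _ (Option.some_injective V), hcard]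
  · simpa using hxp
  · simpa using hxq
  · simpa using hpq
  · rintro (h | ⟨a, ha, hay⟩)
    · simp at h
    · rw [Option.some.injEq] at hay
      exact hy (hay ▸ ha)

/-! ### The base graph -/

/-- Neighbourhoods of the base graph as bit masks. -/
def mask : List ℕ := [30, 629, 451, 945, 555, 218, 422, 364, 716, 282]

/-- Adjacency of the base graph. -/
def adjB (i j : ℕ) : Bool := (mask.getD i 0).testBit j

/-- The base graph: ten vertices and 25 edges. -/
def F : SimpleGraph (Fin 10) where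
  Adj i j := adjB i.val j.val = true
  symm := ⟨by decide +kernel⟩
  loopless := ⟨by decide +kernel⟩

/-- Depth-first search for a colouring extending a list of colours (the colour of vertex
`cs.length - 1` comes first); `ok cs c` tells whether the next vertex may get colour `c`. -/
def dfs (K : ℕ) (ok : List ℕ → ℕ → Bool) : ℕ → List ℕ → Bool
  | 0, _ => true
  | r + 1, cs => (List.range K).any (fun c => ok cs c && dfs K ok r (c :: cs))

/-- The list of colours of the vertices `i-1, ..., 0`. -/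
def pre (f : ℕ → ℕ) : ℕ → List ℕ
  | 0 => []
  | i + 1 => f i :: pre f i

lemma dfs_sound (K : ℕ) (ok : List ℕ → ℕ → Bool) (f : ℕ → ℕ) (n : ℕ)
    (hf : ∀ i < n, f i < K) (hok : ∀ i < n, ok (pre f i) (f i) = true) :
    ∀ r i, i + r = n → dfs K ok r (pre f i) = true := by
  intro r
  induction r with
  | zero => intro i _; rfl
  | succ r ih =>
    intro i hi
    rw [dfs, List.any_eq_true]
    refine ⟨f i, List.mem_range.2 (hf i (by omega)), ?_⟩
    rw [Bool.and_eq_true]
    exact ⟨hok i (by omega), ih (i + 1) (by omega)⟩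

lemma pre_length (f : ℕ → ℕ) (i : ℕ) : (pre f i).length = i := by
  induction i with
  | zero => rfl
  | succ i ih => simp [pre, ih]

lemma pre_getD (f : ℕ → ℕ) (i j : ℕ) (hj : j < i) : (pre f i).getD (i - 1 - j) 0 = f j := by
  induction i with
  | zero => omega
  | succ i ih =>
    rcases Nat.lt_succ_iff_lt_or_eq.1 hj with h | h
    · have h1 : i + 1 - 1 - j = (i - 1 - j) + 1 := by omega
      rw [h1, pre, List.getD_cons_succ]
      exact ih h
    · subst h
      have h1 : j + 1 - 1 - j = 0 := by omega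
      rw [h1, pre, List.getD_cons_zero]

/-- Test used in the search: the next vertex `i = cs.length` gets colour `c`; compare with all
earlier vertices `j` such that `e i j`. -/
def okOf (e : ℕ → ℕ → Bool) (cs : List ℕ) (c : ℕ) : Bool :=
  (List.range cs.length).all
    (fun j => !(e cs.length j) || !(cs.getD (cs.length - 1 - j) 0 == c))

lemma okOf_pre (e : ℕ → ℕ → Bool) (f : ℕ → ℕ) (i : ℕ)
    (h : ∀ j < i, e i j = true → f j ≠ f i) : okOf e (pre f i) (f i) = true := by
  unfold okOf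
  rw [List.all_eq_true]
  intro j hj
  rw [List.mem_range, pre_length] at hj
  rw [pre_length, pre_getD f i j hj]
  by_cases he : e i j = true
  · simp [he, h j hj he]
  · simp [he]

/-- No `4`-colouring of the base graph. -/
lemma F_not : ¬ F.Colorable 4 := by
  rintro ⟨C⟩
  let f : ℕ → ℕ := fun i => if h : i < 10 then (C ⟨i, h⟩).val else 0
  have hf : ∀ i < 10, f i < 4 := by
    intro i hi
    simp only [f, hi, dite_true]
    exact (C ⟨i, hi⟩).isLt
  have h := dfs_sound 4 (okOf adjB) f 10 hf ?_ 10 0 rfl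
  · have h2 : dfs 4 (okOf adjB) 10 [] = false := by decide +kernel
    exact absurd (h2.symm.trans h) (by simp)
  · intro i hi
    apply okOf_pre
    intro j hj he
    simp only [f, hi, (by omega : j < 10), dite_true]
    intro hc
    exact C.valid (show F.Adj ⟨i, hi⟩ ⟨j, by omega⟩ from he) (Fin.ext hc).symm

/-- Conflict relation of the base graph without the edges `0 3` and `1 2`, with the vertices `1`
and `3` forced to be different. -/
def adjS (i j : ℕ) : Bool :=
  (adjB i j && !(i == 0 && j == 3) && !(i == 3 && j == 0) && !(i == 1 && j == 2) &&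
    !(i == 2 && j == 1)) || (i == 3 && j == 1)

/-- As in `okOf`, and moreover the colours of `1` and `2` agree. -/
def okS (cs : List ℕ) (c : ℕ) : Bool :=
  okOf adjS cs c && (!(cs.length == 2) || cs.getD 0 0 == c)

lemma F_forced (c : Fin 10 → Fin 4)
    (hc : ∀ a b, F.Adj a b → s(a, b) ≠ s(0, 3) → s(a, b) ≠ s(1, 2) → c a ≠ c b)
    (h12 : c 1 = c 2) : c 3 = c 1 := by
  by_contra hne
  let f : ℕ → ℕ := fun i => if h : i < 10 then (c ⟨i, h⟩).val else 0
  have hf : ∀ i < 10, f i < 4 := by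
    intro i hi
    simp only [f, hi, dite_true]
    exact (c ⟨i, hi⟩).isLt
  have h := dfs_sound 4 okS f 10 hf ?_ 10 0 rfl
  · have h2 : dfs 4 okS 10 [] = false := by decide +kernel
    exact absurd (h2.symm.trans h) (by simp)
  · intro i hi
    unfold okS
    rw [Bool.and_eq_true]
    constructor
    · apply okOf_pre
      intro j hj he
      have hj10 : j < 10 := by omega
      simp only [f, hi, hj10, dite_true]
      intro hcc
      have hcc' : c ⟨j, hj10⟩ = c ⟨i, hi⟩ := Fin.ext hcc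
      unfold adjS at he
      rw [Bool.or_eq_true] at he
      rcases he with he | he
      · simp only [Bool.and_eq_true, Bool.not_eq_true', Bool.and_eq_false_iff, beq_eq_false_iff_ne,
          ne_eq] at he
        obtain ⟨⟨⟨⟨he, h03⟩, h30⟩, h12'⟩, h21⟩ := he
        refine hc ⟨i, hi⟩ ⟨j, hj10⟩ he ?_ ?_ hcc'.symm
        · intro hs
          rw [Sym2.eq_iff] at hs
          simp only [Fin.ext_iff, Fin.val_zero] at hs
          change (i = 0 ∧ j = 3) ∨ (i = 3 ∧ j = 0) at hs
          omega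
        · intro hs
          rw [Sym2.eq_iff] at hs
          simp only [Fin.ext_iff] at hs
          change (i = 1 ∧ j = 2) ∨ (i = 2 ∧ j = 1) at hs
          omega
      · simp only [Bool.and_eq_true, beq_iff_eq] at he
        obtain ⟨rfl, rfl⟩ := he
        exact hne hcc'.symm
    · by_cases hi2 : i = 2
      · subst hi2
        simp only [pre, List.getD_cons_zero]
        simp only [f]
        simp
        exact congrArg Fin.val h12
      · simp [pre_length, hi2]

/-- For each edge a colouring in which this is the only edge with equally coloured ends. -/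
def tab : List (ℕ × ℕ × List ℕ) :=
  [(0, 1, [0, 0, 1, 2, 3, 1, 2, 0, 3, 1]), (0, 2, [0, 1, 0, 2, 3, 0, 2, 1, 3, 0]),
   (0, 3, [0, 1, 2, 0, 3, 2, 0, 1, 3, 2]), (0, 4, [0, 1, 2, 3, 0, 2, 3, 0, 1, 2]),
   (1, 2, [0, 1, 1, 1, 2, 0, 2, 3, 0, 3]), (1, 4, [0, 1, 2, 2, 1, 0, 3, 1, 0, 3]),
   (1, 5, [0, 1, 2, 2, 3, 1, 0, 3, 1, 0]), (1, 6, [0, 1, 2, 1, 2, 0, 1, 3, 0, 3]),
   (1, 9, [0, 1, 2, 2, 3, 0, 3, 1, 0, 1]), (2, 6, [0, 1, 2, 1, 2, 0, 2, 3, 0, 3]),
   (2, 7, [0, 1, 2, 1, 2, 0, 3, 2, 0, 3]), (2, 8, [0, 1, 2, 1, 3, 2, 0, 3, 2, 0]),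
   (3, 4, [0, 1, 2, 2, 2, 0, 3, 1, 0, 3]), (3, 5, [0, 1, 2, 2, 3, 2, 0, 1, 3, 0]),
   (3, 7, [0, 1, 2, 1, 2, 0, 3, 1, 0, 3]), (3, 8, [0, 1, 2, 1, 3, 2, 0, 3, 1, 0]),
   (3, 9, [0, 1, 2, 2, 3, 0, 3, 1, 0, 2]), (4, 5, [0, 1, 2, 2, 3, 3, 0, 1, 3, 0]),
   (4, 9, [0, 1, 2, 2, 3, 0, 3, 1, 0, 3]), (5, 6, [0, 1, 2, 2, 3, 0, 0, 1, 3, 0]),
   (5, 7, [0, 1, 2, 2, 3, 0, 3, 0, 1, 0]), (6, 7, [0, 1, 2, 1, 2, 0, 3, 3, 0, 3]),
   (6, 8, [0, 1, 2, 1, 3, 2, 0, 3, 0, 2]), (7, 8, [0, 1, 2, 1, 3, 2, 0, 3, 3, 0]),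
   (8, 9, [0, 1, 2, 2, 3, 0, 3, 1, 0, 0])]

/-- Check of one entry of the table. -/
def tabOk (t : ℕ × ℕ × List ℕ) : Bool :=
  (List.range 10).all (fun i => (List.range 10).all (fun j => !(adjB i j) ||
    ((i == t.1 && j == t.2.1) || (i == t.2.1 && j == t.1)) ||
      !((t.2.2.getD i 0) % 4 == (t.2.2.getD j 0) % 4)))

lemma tab_all : tab.all tabOk = true := by decide +kernel

lemma tab_covers : ∀ a b : Fin 10, adjB a b = true →
    ∃ i : Fin 25, ((tab.getD i.val (0, 0, [])).1 = a.val ∧ (tab.getD i.val (0, 0, [])).2.1 = b.val) ∨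
      ((tab.getD i.val (0, 0, [])).1 = b.val ∧ (tab.getD i.val (0, 0, [])).2.1 = a.val) := by
  decide +kernel

lemma F_crit : Crit F 4 := by
  refine ⟨?_, F_not, ?_, ?_⟩
  · refine colorable_of_fun
      (fun i => ([0, 1, 2, 1, 2, 0, 3, 4, 0, 3] : List (Fin 5)).getD i.val 0) ?_
    have : ∀ x y : Fin 10, adjB x y = true →
        ([0, 1, 2, 1, 2, 0, 3, 4, 0, 3] : List (Fin 5)).getD x.val 0 ≠
        ([0, 1, 2, 1, 2, 0, 3, 4, 0, 3] : List (Fin 5)).getD y.val 0 := by decide +kernel
    exact this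
  · intro a b hab
    obtain ⟨i, hi⟩ := tab_covers a b hab
    set t := tab.getD i.val (0, 0, []) with ht
    have htm : t ∈ tab := by
      rw [ht, List.getD_eq_getElem _ _ (show i.val < tab.length from i.isLt)]
      exact List.getElem_mem _
    have hok := (List.all_eq_true.1 tab_all) t htm
    unfold tabOk at hok
    rw [List.all_eq_true] at hok
    refine ⟨fun z => ⟨(t.2.2.getD z.val 0) % 4, Nat.mod_lt _ (by norm_num)⟩, ?_⟩
    intro x y hxy hs
    have h1 := hok x.val (List.mem_range.2 x.isLt)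
    rw [List.all_eq_true] at h1
    have h2 := h1 y.val (List.mem_range.2 y.isLt)
    have hxy' : adjB x.val y.val = true := hxy
    rw [hxy'] at h2
    intro he
    have he' : (t.2.2.getD x.val 0) % 4 = (t.2.2.getD y.val 0) % 4 := congrArg Fin.val he
    rw [he'] at h2
    simp only [Bool.not_true, Bool.false_or, BEq.rfl, Bool.or_false, Bool.or_eq_true,
      Bool.and_eq_true, beq_iff_eq] at h2
    apply hs
    rw [Sym2.eq_iff]
    simp only [Fin.ext_iff]
    omega
  · have : ∀ x : Fin 10, ∃ y : Fin 10, adjB x y = true := by decide +kernel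
    exact this

lemma bad_base : Bad 4 3 := by
  refine ⟨Fin 10, inferInstance, F, {0, 1, 2}, 0, 1, 2, 3, F_crit, ?_, ?_, by simp, by simp,
    by simp, by decide, by decide, by decide, ?_, ?_, F_forced⟩
  · intro a ha b hb hab
    have key : ∀ a b : Fin 10, (a = 0 ∨ a = 1 ∨ a = 2) → (b = 0 ∨ b = 1 ∨ b = 2) → a ≠ b →
        adjB a b = true := by decide +kernel
    exact key a b (by simpa using ha) (by simpa using hb) hab
  · rw [Set.ncard_eq_toFinset_card']
    decide +kernel
  · intro h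
    simp at h
  · show adjB 0 3 = true
    decide +kernel

lemma bad_all (k h : ℕ) (hh : 3 ≤ h) (hk : h ≤ k) : Bad (k + 1) h := by
  obtain ⟨j, rfl⟩ := Nat.exists_eq_add_of_le hh
  obtain ⟨m, rfl⟩ := Nat.exists_eq_add_of_le hk
  have h1 : ∀ j, Bad (3 + j + 1) (3 + j) := by
    intro j
    induction j with
    | zero => exact bad_base
    | succ j ih => exact ih.cone_succ
  have h2 : ∀ m, Bad (3 + j + m + 1) (3 + j) := by
    intro m
    induction m with
    | zero => exact h1 j
    | succ m ih => exact ih.cone_same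
  exact h2 m

/-! ### The glued graph -/

section Glue

variable {V : Type} (H : Set V)

/-- Folding the two copies. -/
def fold : Glued H H (Equiv.refl H) → V :=
  Quot.lift (fun a => Sum.elim id id a) (by
    rintro a b ⟨v, rfl, rfl⟩
    rfl)

/-- Recognising vertices outside the first copy. -/
def side : Glued H H (Equiv.refl H) → Prop :=
  Quot.lift (fun a => Sum.elim (fun _ => False) (fun v => v ∉ H) a) (by
    rintro a b ⟨v, rfl, rfl⟩
    simp)

/-- Recognising vertices outside the second copy. -/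
def side' : Glued H H (Equiv.refl H) → Prop :=
  Quot.lift (fun a => Sum.elim (fun v => v ∉ H) (fun _ => False) a) (by
    rintro a b ⟨v, rfl, rfl⟩
    simp)

lemma inj₁_injective : Function.Injective (inj₁ H H (Equiv.refl H)) := by
  intro a b h
  exact congrArg (fold H) h

lemma inj₂_injective : Function.Injective (inj₂ H H (Equiv.refl H)) := by
  intro a b h
  exact congrArg (fold H) h

lemma inj_eq (v : V) (hv : v ∈ H) :
    inj₁ H H (Equiv.refl H) v = inj₂ H H (Equiv.refl H) v :=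
  Quot.sound ⟨⟨v, hv⟩, rfl, rfl⟩

lemma inj₁_ne_inj₂ (a y : V) (hy : y ∉ H) :
    inj₁ H H (Equiv.refl H) a ≠ inj₂ H H (Equiv.refl H) y := by
  intro h
  have h1 : side H (inj₁ H H (Equiv.refl H) a) = side H (inj₂ H H (Equiv.refl H) y) := by rw [h]
  have h2 : False = (y ∉ H) := h1
  rw [h2]; exact hy

lemma inj₂_ne_inj₁ (a y : V) (hy : y ∉ H) :
    inj₂ H H (Equiv.refl H) a ≠ inj₁ H H (Equiv.refl H) y := by
  intro h
  have h1 : side' H (inj₂ H H (Equiv.refl H) a) = side' H (inj₁ H H (Equiv.refl H) y) := by rw [h]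
  have h2 : False = (y ∉ H) := h1
  rw [h2]; exact hy

end Glue

lemma not_critical_of_bad {K h : ℕ} (hb : Bad K h) :
    ∃ (V : Type) (_ : Finite V) (G : SimpleGraph V) (H : Set V) (x : H) (y : V),
      IsCritical G (K + 1) ∧ G.IsClique H ∧ H.ncard = h ∧ y ∉ H ∧ G.Adj x y ∧
        ¬ IsCritical (diracGraph G G H H (Equiv.refl H) x y y) (K + 1) := by
  obtain ⟨V, hV, G, H, x, p, q, y, hcrit, hcl, hcard, hx, hp, hq, hxp, hxq, hpq, hy, hxy, hc⟩ := hb
  refine ⟨V, hV, G, H, ⟨x, hx⟩, y, hcrit.isCritical, hcl, hcard, hy, hxy, ?_⟩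
  intro hD
  set D := diracGraph G G H H (Equiv.refl H) ⟨x, hx⟩ y y with hDdef
  set i₁ := inj₁ H H (Equiv.refl H) with hi₁
  set i₂ := inj₂ H H (Equiv.refl H) with hi₂
  have hi₁inj : Function.Injective i₁ := inj₁_injective H
  have hi₂inj : Function.Injective i₂ := inj₂_injective H
  have hHH : ∀ v ∈ H, i₁ v = i₂ v := fun v hv => inj_eq H v hv
  have hadj : ∀ z w, D.Adj z w ↔ ((G.map i₁ ⊔ G.map i₂).deleteEdges
      {s(i₁ x, i₁ y), s(i₁ x, i₂ y)} ⊔ SimpleGraph.edge (i₁ y) (i₂ y)).Adj z w :=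
    fun z w => Iff.rfl
  have hyy : D.Adj (i₁ y) (i₂ y) := by
    rw [hadj, SimpleGraph.sup_adj]
    right
    rw [SimpleGraph.edge_adj]
    exact ⟨Or.inl ⟨rfl, rfl⟩, inj₁_ne_inj₂ H y y hy⟩
  have hD1 : ∀ a b, G.Adj a b → s(a, b) ≠ s(x, y) → D.Adj (i₁ a) (i₁ b) := by
    intro a b hab hne
    rw [hadj, SimpleGraph.sup_adj]
    left
    rw [SimpleGraph.deleteEdges_adj]
    refine ⟨?_, ?_⟩
    · rw [SimpleGraph.sup_adj]
      left
      rw [SimpleGraph.map_adj']
      exact ⟨fun h => hab.ne (hi₁inj h), a, b, hab, rfl, rfl⟩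
    · rintro (h | h)
      · rw [Sym2.eq_iff] at h
        apply hne
        rw [Sym2.eq_iff]
        rcases h with h | h
        · exact Or.inl ⟨hi₁inj h.1, hi₁inj h.2⟩
        · exact Or.inr ⟨hi₁inj h.1, hi₁inj h.2⟩
      · rw [Set.mem_singleton_iff, Sym2.eq_iff] at h
        rcases h with h | h
        · exact inj₁_ne_inj₂ H b y hy h.2
        · exact inj₁_ne_inj₂ H a y hy h.1
  have hD2 : ∀ a b, G.Adj a b → s(a, b) ≠ s(x, y) → D.Adj (i₂ a) (i₂ b) := by
    intro a b hab hne
    rw [hadj, SimpleGraph.sup_adj]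
    left
    rw [SimpleGraph.deleteEdges_adj]
    refine ⟨?_, ?_⟩
    · rw [SimpleGraph.sup_adj]
      right
      rw [SimpleGraph.map_adj']
      exact ⟨fun h => hab.ne (hi₂inj h), a, b, hab, rfl, rfl⟩
    · rintro (h | h)
      · rw [Sym2.eq_iff] at h
        rcases h with h | h
        · exact inj₂_ne_inj₁ H b y hy h.2
        · exact inj₂_ne_inj₁ H a y hy h.1
      · rw [Set.mem_singleton_iff, Sym2.eq_iff, hHH x hx] at h
        apply hne
        rw [Sym2.eq_iff]
        rcases h with h | h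
        · exact Or.inl ⟨hi₂inj h.1, hi₂inj h.2⟩
        · exact Or.inr ⟨hi₂inj h.1, hi₂inj h.2⟩
  have hpq_adj : G.Adj p q := hcl hp hq hpq
  have hpqxy : s(p, q) ≠ s(x, y) := by
    intro h
    rw [Sym2.eq_iff] at h
    rcases h with h | h
    · exact hxp h.1.symm
    · exact hxq h.2.symm
  obtain ⟨C, hC⟩ := exists_col_of_isCritical hD (i₁ p) (i₁ q) (hD1 p q hpq_adj hpqxy)
  have hy12 : C (i₁ y) ≠ C (i₂ y) := by
    refine hC _ _ hyy ?_
    intro h
    rw [Sym2.eq_iff, hHH p hp] at h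
    rcases h with h | h
    · exact inj₂_ne_inj₁ H p y hy h.1.symm
    · have h2 : i₂ y = i₂ p := h.2
      exact hy (hi₂inj h2 ▸ hp)
  -- restrictions
  have hc1 : ∀ a b, G.Adj a b → s(a, b) ≠ s(x, y) → s(a, b) ≠ s(p, q) → C (i₁ a) ≠ C (i₁ b) := by
    intro a b hab h1 h2
    refine hC _ _ (hD1 a b hab h1) ?_
    intro h
    apply h2
    rw [Sym2.eq_iff] at h ⊢
    rcases h with h | h
    · exact Or.inl ⟨hi₁inj h.1, hi₁inj h.2⟩
    · exact Or.inr ⟨hi₁inj h.1, hi₁inj h.2⟩
  have hc2 : ∀ a b, G.Adj a b → s(a, b) ≠ s(x, y) → s(a, b) ≠ s(p, q) → C (i₂ a) ≠ C (i₂ b) := by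
    intro a b hab h1 h2
    refine hC _ _ (hD2 a b hab h1) ?_
    intro h
    apply h2
    rw [hHH p hp, hHH q hq, Sym2.eq_iff] at h
    rw [Sym2.eq_iff]
    rcases h with h | h
    · exact Or.inl ⟨hi₂inj h.1, hi₂inj h.2⟩
    · exact Or.inr ⟨hi₂inj h.1, hi₂inj h.2⟩
  have hncol := hcrit.2.1
  -- if p and q get different colours then x and y get the same colour
  have hforce : ∀ c : V → Fin K, (∀ a b, G.Adj a b → s(a, b) ≠ s(x, y) → s(a, b) ≠ s(p, q) →
      c a ≠ c b) → c p ≠ c q → c y = c x := by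
    intro c hcc hne
    by_contra hyx
    apply hncol
    refine colorable_of_fun c ?_
    intro a b hab
    by_cases h1 : s(a, b) = s(x, y)
    · rw [Sym2.eq_iff] at h1
      rcases h1 with h1 | h1
      · rw [h1.1, h1.2]; exact fun h => hyx h.symm
      · rw [h1.1, h1.2]; exact hyx
    · by_cases h2 : s(a, b) = s(p, q)
      · rw [Sym2.eq_iff] at h2
        rcases h2 with h2 | h2
        · rw [h2.1, h2.2]; exact hne
        · rw [h2.1, h2.2]; exact hne.symm
      · exact hcc a b hab h1 h2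
  by_cases hCpq : C (i₁ p) = C (i₁ q)
  · have e1 := hc (fun v => C (i₁ v)) hc1 hCpq
    have e2 := hc (fun v => C (i₂ v)) hc2 (by
      show C (i₂ p) = C (i₂ q)
      rw [← hHH p hp, ← hHH q hq]; exact hCpq)
    apply hy12
    have e1' : C (i₁ y) = C (i₁ p) := e1
    have e2' : C (i₂ y) = C (i₂ p) := e2
    rw [e1', e2', hHH p hp]
  · have e1 := hforce (fun v => C (i₁ v)) hc1 hCpq
    have e2 := hforce (fun v => C (i₂ v)) hc2 (by
      show C (i₂ p) ≠ C (i₂ q)
      rw [← hHH p hp, ← hHH q hq]; exact hCpq)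
    apply hy12
    have e1' : C (i₁ y) = C (i₁ x) := e1
    have e2' : C (i₂ y) = C (i₂ x) := e2
    rw [e1', e2', hHH x hx]

/-- For every `k ≥ 5` and every `h` with `3 ≤ h ≤ k - 2`, Dirac's construction applied to suitable
`k`-critical graphs and complete `h`-graphs gives a graph that is not `k`-critical. -/
theorem result : ∀ k h : ℕ, 5 ≤ k → 3 ≤ h → h ≤ k - 2 →
    ∃ (V₁ V₂ : Type) (_ : Finite V₁) (_ : Finite V₂) (G₁ : SimpleGraph V₁) (G₂ : SimpleGraph V₂)
      (H₁ : Set V₁) (H₂ : Set V₂) (σ : H₁ ≃ H₂) (x₁ : H₁) (y₁ : V₁) (y₂ : V₂),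
      IsCritical G₁ k ∧ IsCritical G₂ k ∧
      G₁.IsClique H₁ ∧ H₁.ncard = h ∧ G₂.IsClique H₂ ∧ H₂.ncard = h ∧
      y₁ ∉ H₁ ∧ G₁.Adj x₁ y₁ ∧ y₂ ∉ H₂ ∧ G₂.Adj (σ x₁) y₂ ∧
      ¬ IsCritical (diracGraph G₁ G₂ H₁ H₂ σ x₁ y₁ y₂) k := by
  intro k h hk hh hhk
  obtain ⟨K, rfl⟩ : ∃ K, k = K + 2 := ⟨k - 2, by omega⟩
  have hb := bad_all K h hh (by omega)
  obtain ⟨V, hV, G, H, x, y, h1, h2, h3, h4, h5, h6⟩ := not_critical_of_bad hb
  exact ⟨V, V, hV, hV, G, G, H, H, Equiv.refl H, x, y, y, h1, h1, h2, h3, h2, h3, h4, h5, h4, h5,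
    h6⟩

end Pool.Agent.Results.MP_93b7f4_co.DiracFails
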